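import Pool.Agent.H37.CTP.Stmts

/-!
# Denominators of conductors: permutation groups of degree `n`: statements of the rows of the board `ctq`

Row `XXX` is a theorem `xxx_thm (h1 : S_AAA) ... : S_XXX` in `Pool/Agent/H<k>/CTQ/XXX.lean`, importing this
file, namespace `Pool.CND`.
-/

set_option autoImplicit false

namespace Pool.CND

open Finset

/-- PG1: `z x ≠ x`, `H = {w ∈ W : w x ∈ ⟨z⟩ x}`, `H₀ = {w ∈ W : w x = x}` is the kernel of `H → ℤ / p`, `w ↦ i`, `w x = z ^ i x`;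
`|W| = |W x| |H₀|`, `|W x| = p ^ (d + 1)` -/
def S_PG1 : Prop := ∀ (p n : ℕ) (G : Type) [Group G] [Finite G] (ι : G →* Equiv.Perm (Fin n))
  (W : Subgroup G) (z : G), p.Prime → Function.Injective ι → (∃ m : ℕ, Nat.card W = p ^ m) →
  z ∈ W → z ≠ 1 → z ^ p = 1 → (∀ w ∈ W, w * z = z * w) → ∃ (H H₀ : Subgroup G) (d : ℕ),
    H ≤ W ∧ z ∈ H ∧ Nat.card W = p ^ d * Nat.card H ∧ p ^ (d + 1) ≤ n ∧ H₀ ≤ H ∧ z ∉ H₀ ∧
    Nat.card H = p * Nat.card H₀ ∧ (∀ h ∈ H, ∀ x ∈ H₀, h * x * h⁻¹ ∈ H₀) ∧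
    ∀ x ∈ H, ∀ h ∈ H, h * x * h⁻¹ * x⁻¹ ∈ H₀

/-- PG2: `O` an orbit of `C` with more than one element, `|O| = p ^ m`, `D ≤ C` the stabiliser of its points (`C` is
commutative), `|C| = p ^ m |D|`; `g` permutes the orbits of `C`; `ℓ ≥ 1` least with `g ^ ℓ O = O`, it divides the order of `g`, so `¬ p ∣ ℓ`, and
`O, g O, ...` are disjoint, so `p ^ m ℓ ≤ n`.  `h = g ^ ℓ` normalises `C` and `D`.  Let `N` be the order of the automorphism of `C` given by `h`; by `YS` all orbits of `⟨h⟩` on `C ∖ 1` (and on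
`D ∖ 1`) have length `N`, so `|C| ≡ 1 ≡ |D|` modulo `N`, so `N` divides `p ^ m - 1` -/
def S_PG2 : Prop := ∀ (p n : ℕ) (G : Type) [Group G] [Finite G] (ι : G →* Equiv.Perm (Fin n))
  (g : G) (C : Subgroup G), p.Prime → Function.Injective ι → ¬ p ∣ orderOf g → C ≠ ⊥ → EA p C →
  (∀ x ∈ C, g * x * g⁻¹ ∈ C) → YS g C → ∃ m ℓ : ℕ, 1 ≤ m ∧ 1 ≤ ℓ ∧ ¬ p ∣ ℓ ∧ p ^ m * ℓ ≤ n ∧
    ∀ x ∈ C, g ^ ((p ^ m - 1) * ℓ) * x = x * g ^ ((p ^ m - 1) * ℓ)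

/-- the lcm of the numbers `(p ^ m - 1) ℓ`, `m, ℓ ≥ 1`, `¬ p ∣ ℓ`, `p ^ m ℓ ≤ n` -/
def lpn (p n : ℕ) : ℕ :=
  ((Icc 1 n ×ˢ Icc 1 n).filter (fun x => ¬ p ∣ x.2 ∧ p ^ x.1 * x.2 ≤ n)).lcm
    (fun x => (p ^ x.1 - 1) * x.2)

/-- PGN: `GDX` with `PG1`, `PG2`: `a = log_p n - 1` (`p` odd), `log_2 n - 2` (`p = 2`; truncated), `r = lpn p n`
(`p = 2`: if `d = 0` the first case of `GDX`, if `d ≥ 1` the second; `m ≤ n` and `ℓ ≤ n` from `p ^ m ℓ ≤ n`) -/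
def S_PGN : Prop := ∀ (p n : ℕ) (k G : Type) [Field k] [IsAlgClosed k] [Group G] [Finite G]
  (ι : G →* Equiv.Perm (Fin n)), p.Prime → CharP k p → Function.Injective ι →
  (∀ c ∈ Cond k G, ∃ y : ℤ,
    ((p ^ (Nat.log p n - Nat.gcd 2 p) * lpn p n : ℕ) : ℚ) * c = y) ∧
  NG k G ∣ p ^ (Nat.log p n - Nat.gcd 2 p) * lpn p n

end Pool.CND
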